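import Mathlib

set_option autoImplicit false

namespace Pool.Agent.Results.MP_68dc86_gt.NotANR

open Set Filter Topology TopologicalSpace

/-- The shadow of the Vietoris-Rips complex of `M` at scale `β` (strict inequality). -/
def shadow {N : ℕ} (M : Set (EuclideanSpace ℝ (Fin N))) (β : ℝ) : Set (EuclideanSpace ℝ (Fin N)) :=
  ⋃ σ ∈ {σ : Set (EuclideanSpace ℝ (Fin N)) | σ.Finite ∧ σ.Nonempty ∧ σ ⊆ M ∧ Metric.diam σ < β}, convexHull ℝ σ

/-- Absolute neighbourhood retracts for metrizable spaces. -/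
def IsANR (Y : Type) [TopologicalSpace Y] : Prop :=
  MetrizableSpace Y ∧ ∀ (Z : Type) [TopologicalSpace Z] [MetrizableSpace Z] (e : Y → Z), IsClosedEmbedding e →
    ∃ W ∈ 𝓝ˢ (range e), ∃ r : C(W, Y), ∀ (y : Y) (h : e y ∈ W), r ⟨e y, h⟩ = y

abbrev E := EuclideanSpace ℝ (Fin 3)

def K : Set ℝ := insert 0 (range fun j : ℕ => (1 / 2 : ℝ) ^ j / 4)
noncomputable def a (t : ℝ) : E := !₂[0, t, 0]
noncomputable def b (t : ℝ) : E := !₂[1 - t ^ 2 / 8, t, 0]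
noncomputable def c : E := !₂[1 / 2, 0, 9 / 10]
noncomputable def d : E := !₂[1 / 2, 0, -1 / 20]
def M : Set E := a '' K ∪ b '' K ∪ {c, d}

lemma K1 {t : ℝ} (h : t ∈ K) : 0 ≤ t ∧ t ≤ 1 / 4 := by
  rcases h with rfl | ⟨j, rfl⟩
  · norm_num
  · have : (1 / 2 : ℝ) ^ j ≤ 1 := pow_le_one₀ (by norm_num) (by norm_num)
    exact ⟨by positivity, by linarith⟩

lemma K2 {s t : ℝ} (hs : s ∈ K) (ht : t ∈ K) : s = t ∨ 2 * s ≤ t ∨ 2 * t ≤ s := by
  have e : ∀ i j : ℕ, i < j → 2 * ((1 / 2 : ℝ) ^ j / 4) ≤ (1 / 2) ^ i / 4 := fun i j h => by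
    have := pow_le_pow_of_le_one (a := (1 / 2 : ℝ)) (by norm_num) (by norm_num) (Nat.succ_le_of_lt h)
    rw [pow_succ] at this; linarith
  have hs' := hs
  rcases hs with rfl | ⟨i, rfl⟩
  · exact Or.inr (Or.inl (by linarith [K1 ht]))
  rcases ht with rfl | ⟨j, rfl⟩
  · exact Or.inr (Or.inr (by linarith [K1 hs']))
  rcases lt_trichotomy i j with h | rfl | h
  exacts [Or.inr (Or.inr (e i j h)), Or.inl rfl, Or.inr (Or.inl (e j i h))]

lemma dlt (p q : E) (r : ℝ) (hr : 0 < r) :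
    dist p q < r ↔ (p 0 - q 0) ^ 2 + (p 1 - q 1) ^ 2 + (p 2 - q 2) ^ 2 < r ^ 2 := by
  rw [EuclideanSpace.dist_eq, Real.sqrt_lt' hr, Fin.sum_univ_three]; simp [Real.dist_eq]

lemma cM : IsCompact M := by
  have e : IsCompact K := by
    simpa [K] using ((tendsto_pow_atTop_nhds_zero_of_lt_one (r := (1 / 2 : ℝ)) (by norm_num) (by norm_num)).div_const
      4).isCompact_insert_range
  exact ((e.image (by unfold a; fun_prop)).union (e.image (by unfold b; fun_prop))).union (toFinite _).isCompact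

lemma desc {p : E} (hp : p ∈ shadow M 1) : p 1 = 0 ∨ (p 2 ≤ 0 ∧
    (p 0 + 10 * p 2 ≤ 0 ∨ 9 / 10 ≤ p 0 - 10 * p 2 ∨ ∃ t ∈ K, p 1 = t * (20 * p 2 + 1))) := by
  obtain ⟨σ, ⟨s1, -, s2, s3⟩, hp⟩ := mem_iUnion₂.1 hp
  have D : ∀ x ∈ σ, ∀ y ∈ σ, (x 0 - y 0) ^ 2 + (x 1 - y 1) ^ 2 + (x 2 - y 2) ^ 2 < 1 ^ 2 := fun x hx y hy =>
    (dlt x y 1 one_pos).1 ((Metric.dist_le_diam_of_mem s1.isBounded hx hy).trans_lt s3)
  have L : ∀ u v w z : ℝ, (∀ x ∈ σ, u * x 0 + v * x 1 + w * x 2 ≤ z) → u * p 0 + v * p 1 + w * p 2 ≤ z :=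
    fun u v w z h => convexHull_min (t := {x : E | u * x 0 + v * x 1 + w * x 2 ≤ z}) h
      (convex_halfSpace_le ⟨fun x y => by simp; ring, fun x y => by simp; ring⟩ z) hp
  have AB : ∀ s ∈ K, ∀ t ∈ K, a s ∈ σ → b t ∈ σ → s = t := fun s hs t ht e1 e2 => by
    have := D _ e1 _ e2
    simp [a, b] at this
    have := K1 hs; have := K1 ht
    rcases K2 hs ht with h | h | h
    · exact h
    all_goals exfalso; nlinarith [sq_nonneg (t ^ 2 / 8)]
  by_cases hc : c ∈ σ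
  · have e : ∀ x ∈ σ, x 1 = 0 := fun x hx => by
      have := D _ hx _ hc
      rcases s2 hx with (⟨t, ht, rfl⟩ | ⟨t, ht, rfl⟩) | rfl | rfl <;> simp [a, b, c, d] at this ⊢
      · nlinarith
      · have := K1 ht; exfalso; nlinarith
    exact Or.inl (by linarith [L 0 1 0 0 fun x hx => by simp [e x hx], L 0 (-1) 0 0 fun x hx => by simp [e x hx]])
  have C : ∀ x ∈ σ, (∃ t ∈ K, a t = x) ∨ (∃ t ∈ K, b t = x) ∨ x = d := fun x hx => by
    rcases s2 hx with (e | e) | rfl | e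
    exacts [Or.inl e, Or.inr (Or.inl e), (hc hx).elim, Or.inr (Or.inr e)]
  have L0 := L 0 0 1 0 fun x hx => by
    rcases C x hx with ⟨t, -, rfl⟩ | ⟨t, -, rfl⟩ | rfl
    exacts [by simp [a], by simp [b], by simp [d]; norm_num]
  refine Or.inr ⟨by linarith, ?_⟩
  by_cases hb : ∃ t ∈ K, b t ∈ σ; swap
  · have := L 1 0 10 0 fun x hx => by
      rcases C x hx with ⟨t, -, rfl⟩ | ⟨t, ht, rfl⟩ | rfl
      exacts [by simp [a], (hb ⟨t, ht, hx⟩).elim, by simp [d]; norm_num]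
    exact Or.inl (by linarith)
  by_cases ha : ∃ t ∈ K, a t ∈ σ; swap
  · have := L (-1) 0 10 (-9 / 10) fun x hx => by
      rcases C x hx with ⟨t, ht, rfl⟩ | ⟨t, ht, rfl⟩ | rfl
      exacts [(ha ⟨t, ht, hx⟩).elim, by have := K1 ht; simp [b]; nlinarith, by simp [d]; norm_num]
    exact Or.inr (Or.inl (by linarith))
  obtain ⟨s, s4, s5⟩ := ha
  obtain ⟨t, t1, t2⟩ := hb
  obtain rfl := AB s s4 t t1 s5 t2
  have e : ∀ x ∈ σ, x 1 = s * (20 * x 2 + 1) := fun x hx => by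
    rcases C x hx with ⟨t, ht, rfl⟩ | ⟨t, ht, rfl⟩ | rfl
    exacts [by simp [a, AB t ht s s4 hx t2], by simp [b, AB s s4 t ht s5 hx], by simp [d]; norm_num]
  have l1 := L 0 1 (-20 * s) s fun x hx => by linarith [e x hx]
  have l2 := L 0 (-1) (20 * s) (-s) fun x hx => by linarith [e x hx]
  exact Or.inr (Or.inr ⟨s, s4, by linarith⟩)

lemma seg {x y p : E} (hx : x ∈ M) (hy : y ∈ M) (h : dist x y < 1) (l : ℝ) (l0 : 0 ≤ l) (l1 : l ≤ 1)
    (e : p = (1 - l) • x + l • y) : p ∈ shadow M 1 :=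
  mem_iUnion₂.2 ⟨{x, y}, ⟨toFinite _, insert_nonempty _ _, pair_subset hx hy, by rwa [Metric.diam_pair]⟩, by
    rw [convexHull_pair]; exact ⟨1 - l, l, by linarith, l0, by ring, e.symm⟩⟩

lemma mem1 {t : ℝ} (t0 : 0 ≤ t) (t1 : t ≤ 1 / 4) : (!₂[1 / 2, 0, t] : E) ∈ shadow M 1 :=
  seg (x := d) (y := c) (by simp [M]) (by simp [M]) (by rw [dlt _ _ _ one_pos]; simp [c, d]; norm_num)
    ((20 * t + 1) / 19) (by positivity) (by linarith) (by ext i; fin_cases i <;> simp [c, d] <;> ring)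

lemma mem2 {t : ℝ} (ht : t ∈ K) (t0 : 0 < t) : (!₂[1 / 2, t, 0] : E) ∈ shadow M 1 := by
  have := K1 ht
  have e : 1 / 2 < 1 - t ^ 2 / 8 := by nlinarith
  exact seg (x := a t) (y := b t) (Or.inl (Or.inl ⟨t, ht, rfl⟩)) (Or.inl (Or.inr ⟨t, ht, rfl⟩))
    (by rw [dlt _ _ _ one_pos]; simp [a, b]; rw [abs_lt]; constructor <;> nlinarith)
    (1 / 2 / (1 - t ^ 2 / 8)) (div_nonneg (by norm_num) (by linarith)) ((div_le_one (by linarith)).2 e.le)
    (by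
      unfold a b
      generalize 1 - t ^ 2 / 8 = u at e
      have : u ≠ 0 := by linarith
      ext i; fin_cases i <;> simp <;> field_simp <;> ring)

theorem result : ∃ (N : ℕ) (M : Set (EuclideanSpace ℝ (Fin N))) (β : ℝ), 1 ≤ N ∧ M.Nonempty ∧ IsCompact M ∧
    0 < β ∧ ¬ IsANR (shadow M β) := by
  classical
  refine ⟨3, M, 1, by norm_num, ⟨c, by simp [M]⟩, cM, one_pos, fun h => ?_⟩
  let O : Set E := {p | 0 < p 1 ∧ 0 < p 2}
  have hO : IsOpen O := (isOpen_lt (g := fun p : E => p 1) continuous_const (by fun_prop)).inter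
    (isOpen_lt (g := fun p : E => p 2) continuous_const (by fun_prop))
  obtain ⟨W, w1, r, hr⟩ := h.2 ↥(shadow M 1 ∪ O) (inclusion subset_union_left) (.inclusion _ (by
    rw [← isOpen_compl_iff]
    convert hO.preimage (continuous_subtype_val (p := (· ∈ shadow M 1 ∪ O)))
    ext z
    exact ⟨fun e => z.2.resolve_left e, fun e e1 => (desc e1).elim e.1.ne' fun e2 => e2.1.not_gt e.2⟩))
  let R : ↥(shadow M 1 ∪ O) → E := fun z => if h : z ∈ W then r ⟨z, h⟩ else 0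
  have R1 : ContinuousOn R W := continuousOn_iff_continuous_domRestrict.2 (by
    convert continuous_subtype_val.comp r.continuous; ext z; simp [R])
  have R2 : ∀ p (h : p ∈ shadow M 1), R ⟨p, Or.inl h⟩ = p := fun p h => by
    have e := subset_of_mem_nhdsSet w1 ⟨⟨p, h⟩, rfl⟩
    exact (dif_pos e).trans (congrArg Subtype.val (hr ⟨p, h⟩ e))
  have x0 := mem1 le_rfl (by norm_num)
  have w2 : W ∈ 𝓝 ⟨_, Or.inl x0⟩ := mem_nhdsSet_iff_forall.1 w1 _ ⟨⟨_, x0⟩, rfl⟩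
  obtain ⟨δ, δ0, hδ⟩ := Metric.mem_nhds_iff.1 (inter_mem w2 ((R1.continuousAt w2).preimage_mem_nhds
    (Metric.ball_mem_nhds _ (show (0 : ℝ) < 1 / 100 by norm_num))))
  obtain ⟨j, hj⟩ := exists_pow_lt_of_lt_one δ0 (show (1 / 2 : ℝ) < 1 by norm_num)
  have ht : (1 / 2 : ℝ) ^ j / 4 ∈ K := Or.inr ⟨j, rfl⟩
  have t0 : 0 < (1 / 2 : ℝ) ^ j / 4 := by positivity
  have t1 : (1 / 2 : ℝ) ^ j / 4 < δ := by linarith
  generalize (1 / 2 : ℝ) ^ j / 4 = t at ht t0 t1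
  let γ : unitInterval → ↥(shadow M 1 ∪ O) := fun s => ⟨!₂[1 / 2, (1 - s) * t, s * t], by
    rcases eq_or_lt_of_le s.2.1 with e | e
    · exact Or.inl (by simpa [← e] using mem2 ht t0)
    rcases eq_or_lt_of_le s.2.2 with e1 | e1
    · exact Or.inl (by simpa [e1] using mem1 t0.le (K1 ht).2)
    exact Or.inr ⟨mul_pos (sub_pos.2 e1) t0, mul_pos e t0⟩⟩
  have g1 : Continuous γ := Continuous.subtype_mk (by fun_prop) _
  have g2 := fun s => hδ (a := γ s) (by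
    rw [Metric.mem_ball, Subtype.dist_eq, dlt _ _ _ δ0]
    have := mul_nonneg (mul_nonneg s.2.1 (sub_nonneg.2 s.2.2)) (sq_nonneg t)
    simp [γ]; nlinarith)
  have g3 : Continuous (R ∘ γ) := R1.comp_continuous g1 fun s => (g2 s).1
  obtain ⟨s, hs⟩ := intermediate_value_univ (f := fun s => (R ∘ γ) s 1 - 3 * t / 4 * (20 * (R ∘ γ) s 2 + 1)) 1 0
    (by generalize R ∘ γ = F at g3; fun_prop) (show (0 : ℝ) ∈ _ by
      have e1 : R (γ 1) = !₂[1 / 2, 0, t] := by rw [← R2 _ (mem1 t0.le (K1 ht).2)]; simp [γ]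
      have e2 : R (γ 0) = !₂[1 / 2, t, 0] := by rw [← R2 _ (mem2 ht t0)]; simp [γ]
      simp [e1, e2]; constructor <;> nlinarith)
  have e1 : R (γ s) ∈ shadow M 1 := by simp only [R, dif_pos (g2 s).1]; exact Subtype.prop _
  have e2 := (dlt _ _ _ (by norm_num)).1 (g2 s).2
  rw [R2 _ x0] at e2
  simp only [Function.comp] at hs
  generalize R (γ s) = p at hs e1 e2
  simp at e2
  have e3 : |p 0 - 1 / 2| < 1 / 100 := abs_lt_of_sq_lt_sq (by nlinarith) (by norm_num)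
  have e4 : |p 2| < 1 / 100 := abs_lt_of_sq_lt_sq (by nlinarith) (by norm_num)
  rw [abs_lt] at e3 e4
  rcases desc e1 with e | ⟨-, e | e | ⟨u, u1, e⟩⟩
  · nlinarith
  · linarith
  · linarith
  have : u = 3 * t / 4 := mul_right_cancel₀ (b := 20 * p 2 + 1) (by linarith) (by linarith)
  rcases K2 u1 ht with e | e | e <;> linarith

end Pool.Agent.Results.MP_68dc86_gt.NotANR
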